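import Pool.Agent.R825.Reaping

/-!
# `𝔯_{1/2} = 𝔯_{(0,1)}` in ZFC
-/

namespace Pool.Agent.Results.MP_5d23e6_lc.ReapingNumbersEqual

open Set Pool.Agent.R825.Reaping

/-- **Negative answer to Q1.** ZFC proves `𝔯_{1/2} = 𝔯_{(0,1)}`; more generally `𝔯_X = 𝔯_{(0,1)}`
for each nonempty `X ⊆ (0, 1)`. -/
theorem result :
    reap {some (1 / 2)} = reap (some '' Ioo (0 : ℝ) 1) ∧
    ∀ X : Set (Option ℝ), X ⊆ some '' Ioo (0 : ℝ) 1 → X.Nonempty →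
      reap X = reap (some '' Ioo (0 : ℝ) 1) :=
  ⟨reap_eq (by rintro _ rfl; exact ⟨1 / 2, by norm_num, rfl⟩) (singleton_nonempty _),
    fun _ h h' => reap_eq h h'⟩

end Pool.Agent.Results.MP_5d23e6_lc.ReapingNumbersEqual
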